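import Pool.Agent.Helper94.DG.Defs
import Pool.Agent.Helper95.RV.Upper

/-!
# Digests: the upper bounds
-/

set_option autoImplicit false

open Finset

namespace Pool.Agent.Helper28.DG

open Pool.Agent.Helper22.ETModel Pool.Agent.Helper8.VT Pool.Agent.Helper8.UV
open Pool.Agent.Helper53.TC5 Pool.Agent.Helper94.DG

/-! ### A voter that ignores a side -/

theorem side_symm {n p q : ℕ} {u v : Fin n} (h : Side p q u v) : Side p q v u := by
  rcases h with h | h
  · exact Or.inr ⟨h.2, h.1⟩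
  · exact Or.inl ⟨h.2, h.1⟩

open Classical in
/-- The cells that are not in the side `p q`. -/
noncomputable def rest {n : ℕ} (p q : ℕ) : Finset (Fin n × Fin n) :=
  univ.filter fun c : Fin n × Fin n => ¬ Side p q c.1 c.2

theorem mem_rest {n p q : ℕ} {u v : Fin n} :
    (u, v) ∈ (rest p q : Finset (Fin n × Fin n)) ↔ ¬ Side p q u v := by
  unfold rest
  rw [mem_filter]
  simp

theorem has_rest {n p q : ℕ} {u v : Fin n} :
    Has (rest p q : Finset (Fin n × Fin n)) u v ↔ ¬ Side p q u v := by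
  unfold Has
  rw [mem_rest, mem_rest]
  constructor
  · rintro (h | h)
    · exact h
    · exact fun h2 => h (side_symm h2)
  · exact fun h => Or.inl h

theorem side_rest {n p q : ℕ} : side p q (rest p q : Finset (Fin n × Fin n)) = 0 := by
  classical
  unfold side
  rw [card_eq_zero, filter_eq_empty_iff]
  rintro c - ⟨h1, h2, h3⟩
  exact has_rest.1 h3 (Or.inl ⟨h1, h2⟩)

theorem tri_le_sqrt (n a b c : ℕ) : tri n a b c ≤ Real.sqrt ((a : ℝ) * b * c) := min_le_left _ _

theorem tri_zero {n a b c : ℕ} (h : a = 0 ∨ b = 0 ∨ c = 0) : tri n a b c ≤ 0 := by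
  refine (tri_le_sqrt n a b c).trans (le_of_eq ?_)
  rw [Real.sqrt_eq_zero']
  rcases h with rfl | rfl | rfl <;> simp

theorem tri_rest {n p q : ℕ} (h : p < q) (hq : q < 3) :
    tri n (side 0 1 (rest p q : Finset (Fin n × Fin n)))
      (side 1 2 (rest p q : Finset (Fin n × Fin n)))
      (side 0 2 (rest p q : Finset (Fin n × Fin n))) ≤ 0 := by
  apply tri_zero
  have hcases : (p = 0 ∧ q = 1) ∨ (p = 1 ∧ q = 2) ∨ (p = 0 ∧ q = 2) := by omega
  rcases hcases with ⟨rfl, rfl⟩ | ⟨rfl, rfl⟩ | ⟨rfl, rfl⟩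
  · exact Or.inl side_rest
  · exact Or.inr (Or.inl side_rest)
  · exact Or.inr (Or.inr side_rest)

theorem price_free {n : ℕ} {K : Fin n → Fin n → ℕ}
    (δ : Flags n → ∀ u v : Fin n, ℤ → Fin (K u v)) (H : Inst n → ℝ) (hH : IsFree H) :
    PriceG δ H 0 := by
  obtain ⟨p, q, hpq, hq, F, hF⟩ := hH
  intro f
  refine ⟨rest p q, ?_, tri_rest hpq hq⟩
  intro w w' hw hw' _ h2
  rw [hF _ hw, hF _ hw']
  have h3 : hide p q w = hide p q w' := by
    funext u v
    unfold hide
    by_cases hs : Side p q u v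
    · rw [if_pos hs, if_pos hs]
    · rw [if_neg hs, if_neg hs]
      exact h2 u v (Or.inl (has_rest.2 hs))
  change F f (hide p q w) = F f (hide p q w')
  rw [h3]

/-! ### Random digests -/

section U1

/-- Maps with a collision. -/
theorem collide {A : Type} [Fintype A] [DecidableEq A] (N : ℕ) {a b : A} (hab : a ≠ b) :
    (univ.filter fun ω : A → Fin N => ω a = ω b).card * N ≤ Fintype.card (A → Fin N) := by
  classical
  have h1 : ((univ.filter fun ω : A → Fin N => ω a = ω b) ×ˢ (univ : Finset (Fin N))).card ≤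
      (univ : Finset (A → Fin N)).card := by
    apply card_le_card_of_injOn (fun x => Function.update x.1 a x.2)
    · intro x _
      exact mem_coe.2 (mem_univ _)
    · rintro ⟨ω, c⟩ hx ⟨ω', c'⟩ hx' heq
      rw [mem_coe, mem_product, mem_filter] at hx hx'
      have e1 : ω a = ω b := hx.1.2
      have e2 : ω' a = ω' b := hx'.1.2
      simp only at heq
      have e3 : ∀ z, z ≠ a → ω z = ω' z := by
        intro z hz
        have := congrFun heq z
        rwa [Function.update_of_ne hz, Function.update_of_ne hz] at this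
      have e4 : c = c' := by
        have := congrFun heq a
        rwa [Function.update_self, Function.update_self] at this
      have e5 : ω = ω' := by
        funext z
        by_cases hz : z = a
        · rw [hz, e1, e2]
          exact e3 b hab.symm
        · exact e3 z hz
      rw [e4, e5]
  rw [card_product, card_univ, card_univ, Fintype.card_fin] at h1
  exact h1

/-- The triangles. -/
def Trs (n : ℕ) : Finset (Fin n × Fin n × Fin n) :=
  univ.filter fun t : Fin n × Fin n × Fin n =>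
    (t.1 : ℕ) % 3 = 0 ∧ (t.2.1 : ℕ) % 3 = 1 ∧ (t.2.2 : ℕ) % 3 = 2

theorem card_Trs (n : ℕ) : 20 * (Trs n).card ≤ n ^ 3 := by
  have hinj : ∀ r : ℕ, r < 3 → (univ.filter fun u : Fin n => (u : ℕ) % 3 = r).card ≤
      (n + 2 - r) / 3 := by
    intro r hr
    have h1 : (univ.filter fun u : Fin n => (u : ℕ) % 3 = r).card ≤
        (range ((n + 2 - r) / 3)).card := by
      apply card_le_card_of_injOn (fun u : Fin n => (u : ℕ) / 3)
      · intro u hu
        rw [mem_coe, mem_filter] at hu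
        rw [mem_coe, mem_range]
        have := u.isLt
        change (u : ℕ) / 3 < _
        omega
      · intro u hu u' hu' heq
        rw [mem_coe, mem_filter] at hu hu'
        simp only at heq
        apply Fin.ext
        omega
    rwa [card_range] at h1
  have h1 : Trs n = (univ.filter fun u : Fin n => (u : ℕ) % 3 = 0) ×ˢ
      ((univ.filter fun u : Fin n => (u : ℕ) % 3 = 1) ×ˢ
        (univ.filter fun u : Fin n => (u : ℕ) % 3 = 2)) := by
    ext t
    simp [Trs]
  rw [h1, card_product, card_product]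
  have h0 := hinj 0 (by norm_num)
  have h2 := hinj 1 (by norm_num)
  have h3 := hinj 2 (by norm_num)
  have e0 : (n + 2 - 0) / 3 ≤ (n + 2) / 3 := by omega
  have h4 : (univ.filter fun u : Fin n => (u : ℕ) % 3 = 0).card *
      ((univ.filter fun u : Fin n => (u : ℕ) % 3 = 1).card *
        (univ.filter fun u : Fin n => (u : ℕ) % 3 = 2).card) ≤
      ((n + 2) / 3) * (((n + 1) / 3) * (n / 3)) := by
    apply Nat.mul_le_mul (h0.trans e0)
    apply Nat.mul_le_mul
    · exact h2.trans (by omega)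
    · exact h3.trans (by omega)
  refine (Nat.mul_le_mul_left 20 h4).trans ?_
  obtain ⟨k, hk⟩ : ∃ k, n = 3 * k ∨ n = 3 * k + 1 ∨ n = 3 * k + 2 := ⟨n / 3, by omega⟩
  rcases hk with rfl | rfl | rfl
  · have a1 : (3 * k + 2) / 3 = k := by omega
    have a2 : (3 * k + 1) / 3 = k := by omega
    have a3 : (3 * k) / 3 = k := by omega
    rw [a1, a2, a3]
    nlinarith [Nat.zero_le (k * (k * k))]
  · have a1 : (3 * k + 1 + 2) / 3 = k + 1 := by omega
    have a2 : (3 * k + 1 + 1) / 3 = k := by omega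
    have a3 : (3 * k + 1) / 3 = k := by omega
    rw [a1, a2, a3]
    nlinarith [Nat.zero_le (k * (k * k)), Nat.zero_le (k * k), Nat.zero_le k]
  · have a1 : (3 * k + 2 + 2) / 3 = k + 1 := by omega
    have a2 : (3 * k + 2 + 1) / 3 = k + 1 := by omega
    have a3 : (3 * k + 2) / 3 = k := by omega
    rw [a1, a2, a3]
    nlinarith [Nat.zero_le (k * (k * k)), Nat.zero_le (k * k), Nat.zero_le k]

/-- The integers that can occur. -/
abbrev Rg (n : ℕ) : Type := {x : ℤ // x ∈ Icc (-(2 * (n : ℤ) ^ 300)) (2 * (n : ℤ) ^ 300)}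

/-- The digest. -/
noncomputable def dg {n : ℕ} (hn : 0 < n) (ω : Rg n → Fin (n ^ 3)) (x : ℤ) : Fin (n ^ 3) :=
  if h : x ∈ Icc (-(2 * (n : ℤ) ^ 300)) (2 * (n : ℤ) ^ 300) then ω ⟨x, h⟩
  else ⟨0, by positivity⟩

open Classical in
/-- The vote. -/
noncomputable def vote {n : ℕ} (hn : 0 < n) (ω : Rg n → Fin (n ^ 3)) (I : Inst n) : ℝ :=
  if ∃ t ∈ Trs n, dg hn ω (I.wt t.1 t.2.1) = dg hn ω (-(I.wt t.2.1 t.2.2) - I.wt t.1 t.2.2)
  then 1 else 0

theorem vote_price {n : ℕ} (hn : 0 < n) (ω : Rg n → Fin (n ^ 3)) :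
    PriceG (K := fun _ _ => n ^ 3) (fun _ _ _ => dg hn ω) (vote hn ω) 0 := by
  intro f
  refine ⟨rest 0 1, ?_, tri_rest (by norm_num) (by norm_num)⟩
  intro w w' _ _ h1 h2
  have key : ∀ t ∈ Trs n, (dg hn ω (w t.1 t.2.1) = dg hn ω (-(w t.2.1 t.2.2) - w t.1 t.2.2) ↔
      dg hn ω (w' t.1 t.2.1) = dg hn ω (-(w' t.2.1 t.2.2) - w' t.1 t.2.2)) := by
    intro t ht
    unfold Trs at ht
    rw [mem_filter] at ht
    obtain ⟨-, c0, c1, c2⟩ := ht
    have e1 : dg hn ω (w t.1 t.2.1) = dg hn ω (w' t.1 t.2.1) := h1 t.1 t.2.1 (by omega)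
    have e2 := h2 t.2.1 t.2.2 (Or.inl (has_rest.2 (by unfold Side; omega)))
    have e3 := h2 t.1 t.2.2 (Or.inl (has_rest.2 (by unfold Side; omega)))
    rw [e1, e2, e3]
  have key2 : (∃ t ∈ Trs n, dg hn ω (w t.1 t.2.1) =
      dg hn ω (-(w t.2.1 t.2.2) - w t.1 t.2.2)) ↔
      ∃ t ∈ Trs n, dg hn ω (w' t.1 t.2.1) =
      dg hn ω (-(w' t.2.1 t.2.2) - w' t.1 t.2.2) := by
    constructor
    · rintro ⟨t, ht, h⟩
      exact ⟨t, ht, (key t ht).1 h⟩
    · rintro ⟨t, ht, h⟩
      exact ⟨t, ht, (key t ht).2 h⟩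
  unfold vote
  by_cases h : ∃ t ∈ Trs n, dg hn ω (w t.1 t.2.1) = dg hn ω (-(w t.2.1 t.2.2) - w t.1 t.2.2)
  · rw [if_pos h, if_pos (key2.1 h)]
  · rw [if_neg h, if_neg (fun h' => h (key2.2 h'))]

theorem vote_decides {n : ℕ} (hn : 0 < n) (I : Inst n) (hI : I.Valid) (hT : Tripartite I) :
    Decides (fun (ω : Rg n → Fin (n ^ 3)) (_ : Fin 1) => vote hn ω) I := by
  classical
  unfold Decides
  have hyes := Pool.Agent.Helper95.RV.yes_iff I hI hT
  have hmem : ∀ t : Fin n × Fin n × Fin n,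
      I.wt t.1 t.2.1 ∈ Icc (-(2 * (n : ℤ) ^ 300)) (2 * (n : ℤ) ^ 300) ∧
      -(I.wt t.2.1 t.2.2) - I.wt t.1 t.2.2 ∈
        Icc (-(2 * (n : ℤ) ^ 300)) (2 * (n : ℤ) ^ 300) := by
    intro t
    have a1 := abs_le.1 (hI.2.2.2 t.1 t.2.1)
    have a2 := abs_le.1 (hI.2.2.2 t.2.1 t.2.2)
    have a3 := abs_le.1 (hI.2.2.2 t.1 t.2.2)
    rw [mem_Icc, mem_Icc]
    generalize (n : ℤ) ^ 300 = M at *
    omega
  set a : Fin n × Fin n × Fin n → Rg n := fun t => ⟨I.wt t.1 t.2.1, (hmem t).1⟩ with ha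
  set b : Fin n × Fin n × Fin n → Rg n := fun t =>
    ⟨-(I.wt t.2.1 t.2.2) - I.wt t.1 t.2.2, (hmem t).2⟩ with hb
  have hdg : ∀ (ω : Rg n → Fin (n ^ 3)) t, (dg hn ω (I.wt t.1 t.2.1) =
      dg hn ω (-(I.wt t.2.1 t.2.2) - I.wt t.1 t.2.2) ↔ ω (a t) = ω (b t)) := by
    intro ω t
    unfold dg
    rw [dif_pos (hmem t).1, dif_pos (hmem t).2]
  set bad : Finset (Rg n → Fin (n ^ 3)) := (Trs n).biUnion fun t =>
    if a t ≠ b t then univ.filter fun ω => ω (a t) = ω (b t) else ∅ with hbad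
  have hbadc : 20 * bad.card ≤ Fintype.card (Rg n → Fin (n ^ 3)) := by
    have hN : 0 < n ^ 3 := by positivity
    have h1 : bad.card * n ^ 3 ≤ (Trs n).card * Fintype.card (Rg n → Fin (n ^ 3)) := by
      calc bad.card * n ^ 3 ≤ (∑ t ∈ Trs n, (if a t ≠ b t then
            univ.filter fun ω : Rg n → Fin (n ^ 3) => ω (a t) = ω (b t) else ∅).card) * n ^ 3 :=
            Nat.mul_le_mul_right _ card_biUnion_le
        _ = ∑ t ∈ Trs n, (if a t ≠ b t then
            univ.filter fun ω : Rg n → Fin (n ^ 3) => ω (a t) = ω (b t) else ∅).card * n ^ 3 :=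
            sum_mul _ _ _
        _ ≤ ∑ t ∈ Trs n, Fintype.card (Rg n → Fin (n ^ 3)) := by
            apply sum_le_sum
            intro t _
            split_ifs with hab
            · exact collide _ hab
            · rw [card_empty, zero_mul]
              exact Nat.zero_le _
        _ = _ := by rw [sum_const, smul_eq_mul]
    have h2 : n ^ 3 * (20 * bad.card) ≤ n ^ 3 * Fintype.card (Rg n → Fin (n ^ 3)) := by
      calc n ^ 3 * (20 * bad.card) = 20 * (bad.card * n ^ 3) := by ring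
        _ ≤ 20 * ((Trs n).card * Fintype.card (Rg n → Fin (n ^ 3))) :=
            Nat.mul_le_mul_left _ h1
        _ = (20 * (Trs n).card) * Fintype.card (Rg n → Fin (n ^ 3)) := by ring
        _ ≤ n ^ 3 * Fintype.card (Rg n → Fin (n ^ 3)) := Nat.mul_le_mul_right _ (card_Trs n)
    exact Nat.le_of_mul_le_mul_left h2 hN
  have hgood : (univ \ bad) ⊆ univ.filter fun ω : Rg n → Fin (n ^ 3) =>
      (0 < ∑ _s : Fin 1, vote hn ω I ↔ I.Yes) := by
    intro ω hω
    rw [mem_sdiff] at hω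
    rw [mem_filter]
    refine ⟨mem_univ _, ?_⟩
    rw [Fin.sum_univ_one, hyes]
    unfold vote
    have hiff : (∃ t ∈ Trs n, dg hn ω (I.wt t.1 t.2.1) =
        dg hn ω (-(I.wt t.2.1 t.2.2) - I.wt t.1 t.2.2)) ↔
        ∃ c j k : Fin n, (c : ℕ) % 3 = 0 ∧ (j : ℕ) % 3 = 1 ∧ (k : ℕ) % 3 = 2 ∧
          I.wt c j + I.wt j k + I.wt c k = 0 := by
      constructor
      · rintro ⟨t, ht, h⟩
        have hab : a t = b t := by
          by_contra hne
          apply hω.2
          rw [hbad, mem_biUnion]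
          refine ⟨t, ht, ?_⟩
          rw [if_pos hne, mem_filter]
          exact ⟨mem_univ _, (hdg ω t).1 h⟩
        have h2 : I.wt t.1 t.2.1 = -(I.wt t.2.1 t.2.2) - I.wt t.1 t.2.2 :=
          congrArg Subtype.val hab
        unfold Trs at ht
        rw [mem_filter] at ht
        exact ⟨t.1, t.2.1, t.2.2, ht.2.1, ht.2.2.1, ht.2.2.2, by rw [h2]; ring⟩
      · rintro ⟨c, j, k, hc, hj, hk, h⟩
        refine ⟨(c, j, k), ?_, ?_⟩
        · unfold Trs
          rw [mem_filter]
          exact ⟨mem_univ _, hc, hj, hk⟩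
        · have h2 : I.wt c j = -(I.wt j k) - I.wt c k := by linear_combination h
          simp only
          rw [h2]
    by_cases h : ∃ t ∈ Trs n, dg hn ω (I.wt t.1 t.2.1) =
        dg hn ω (-(I.wt t.2.1 t.2.2) - I.wt t.1 t.2.2)
    · rw [if_pos h]
      exact ⟨fun _ => hiff.1 h, fun _ => zero_lt_one⟩
    · rw [if_neg h]
      exact ⟨fun h0 => absurd h0 (lt_irrefl _), fun h0 => absurd (hiff.2 h0) h⟩
  have h1 := card_le_card hgood
  rw [card_sdiff_of_subset (subset_univ _), card_univ] at h1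
  have h2 : bad.card ≤ Fintype.card (Rg n → Fin (n ^ 3)) := card_le_univ _
  change 19 * Fintype.card (Rg n → Fin (n ^ 3)) ≤ 20 * (univ.filter fun ω : Rg n → Fin (n ^ 3) =>
    (0 < ∑ _s : Fin 1, vote hn ω I ↔ I.Yes)).card
  omega

theorem upper_digest (n : ℕ) : ∃ (Ω : Type) (_ : Fintype Ω) (_ : Nonempty Ω)
    (δ : Ω → ∀ u v : Fin n, ℤ → Fin (n ^ 3)) (H : Ω → Inst n → ℝ),
    (∀ ω, PriceG (K := fun _ _ => n ^ 3) (fun _ => δ ω) (H ω) 0) ∧
    ∀ I : Inst n, I.Valid → Tripartite I → Decides (fun ω (_ : Fin 1) => H ω) I := by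
  classical
  rcases Nat.eq_zero_or_pos n with rfl | hn
  · refine ⟨Unit, inferInstance, inferInstance, fun _ u => u.elim0, fun _ _ => 0, ?_, ?_⟩
    · intro _ f
      exact ⟨rest 0 1, fun _ _ _ _ _ _ => rfl, tri_rest (by norm_num) (by norm_num)⟩
    · intro I _ _
      unfold Decides
      have h1 : ¬ I.Yes := by
        rintro ⟨i, -⟩
        exact i.elim0
      rw [filter_true_of_mem, card_univ]
      · omega
      · intro _ _
        rw [sum_const_zero]
        exact ⟨fun h => absurd h (lt_irrefl _), fun h => absurd h h1⟩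
  · refine ⟨Rg n → Fin (n ^ 3), inferInstance, ⟨fun _ => ⟨0, by positivity⟩⟩,
      fun ω _ _ => dg hn ω, fun ω => vote hn ω, fun ω => vote_price hn ω, ?_⟩
    intro I hI hT
    exact vote_decides hn I hI hT

end U1

/-! ### Functions of three weights (from helper53's `V2` and `Helper21/MP/Three.lean`) -/

section V2

variable {n : ℕ}

/-- the vote `1` for the triangle `i j k` of sum `0` -/
private noncomputable def one (i j k : Fin n) (I : Inst n) : ℝ :=
  if I.wt i j + I.wt j k + I.wt i k = 0 then 1 else 0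

private def cells (i j k : Fin n) : Finset (Fin n × Fin n) := {(i, j), (j, k), (i, k)}

private lemma has_cells {i j k u v : Fin n} (h : Has (cells i j k) u v) :
    (u = i ∧ v = j) ∨ (u = j ∧ v = k) ∨ (u = i ∧ v = k) ∨
      (v = i ∧ u = j) ∨ (v = j ∧ u = k) ∨ (v = i ∧ u = k) := by
  unfold Has cells at h
  simp only [Finset.mem_insert, Finset.mem_singleton, Prod.mk.injEq] at h
  tauto

private lemma side_cells {i j k : Fin n} (hi : (i : ℕ) % 3 = 0) (hj : (j : ℕ) % 3 = 1)
    (hk : (k : ℕ) % 3 = 2) {p q : ℕ} (hpq : p < q) (hq : q < 3) :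
    side p q (cells i j k) ≤ 1 := by
  classical
  unfold side
  refine Finset.card_le_one.2 ?_
  rintro ⟨u, v⟩ hx ⟨u', v'⟩ hx'
  rw [mem_filter] at hx hx'
  obtain ⟨-, h1, h2, h3⟩ := hx
  obtain ⟨-, h1', h2', h3'⟩ := hx'
  simp only at h1 h2 h3 h1' h2' h3'
  rcases has_cells h3 with h | h | h | h | h | h <;>
  rcases has_cells h3' with h' | h' | h' | h' | h' | h' <;>
  obtain ⟨rfl, rfl⟩ := h <;> obtain ⟨rfl, rfl⟩ := h' <;>
  first
    | rfl
    | (exfalso; omega)

private lemma one_congr {i j k : Fin n} {f : Flags n} {w w' : Wts n}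
    (h : ∀ u v : Fin n, Has (cells i j k) u v → w u v = w' u v) :
    one i j k ⟨f, w⟩ = one i j k ⟨f, w'⟩ := by
  have h1 := h i j (Or.inl (by simp [cells]))
  have h2 := h j k (Or.inl (by simp [cells]))
  have h3 := h i k (Or.inl (by simp [cells]))
  unfold one
  simp only [h1, h2, h3]

private lemma tri_one {a b c : ℕ} (ha : a ≤ 1) (hb : b ≤ 1) (hc : c ≤ 1) : tri n a b c ≤ 1 := by
  refine (tri_le_sqrt n a b c).trans ?_
  rw [Real.sqrt_le_one]
  have h1 : a * b * c ≤ 1 := by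
    calc a * b * c ≤ 1 * 1 * 1 := Nat.mul_le_mul (Nat.mul_le_mul ha hb) hc
      _ = 1 := by norm_num
  exact_mod_cast h1

private lemma one_price {i j k : Fin n} (hi : (i : ℕ) % 3 = 0) (hj : (j : ℕ) % 3 = 1)
    (hk : (k : ℕ) % 3 = 2) : PriceG (K := fun _ _ => 1) (fun _ _ _ _ => 0) (one i j k) 1 := by
  intro f
  refine ⟨cells i j k, fun w w' _ _ _ h => one_congr fun u v huv => h u v (Or.inl huv), ?_⟩
  exact tri_one (side_cells hi hj hk (by norm_num) (by norm_num))
    (side_cells hi hj hk (by norm_num) (by norm_num))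
    (side_cells hi hj hk (by norm_num) (by norm_num))

private def c0 (a : Fin ((n + 2) / 3)) : Fin n := ⟨3 * a, by omega⟩
private def c1 (a : Fin ((n + 1) / 3)) : Fin n := ⟨3 * a + 1, by omega⟩
private def c2 (a : Fin (n / 3)) : Fin n := ⟨3 * a + 2, by omega⟩

end V2

theorem upper_three (n : ℕ) :
    ∃ H : Fin ((n + 2) / 3 * ((n + 1) / 3) * (n / 3)) → Inst n → ℝ,
      (∀ r, PriceG (K := fun _ _ => 1) (fun _ _ _ _ => 0) (H r) 1) ∧
      ∀ I : Inst n, I.Valid → Tripartite I → (0 < ∑ r, H r I ↔ I.Yes) := by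
  refine ⟨fun r => one (c0 (finProdFinEquiv.symm (finProdFinEquiv.symm r).1).1)
    (c1 (finProdFinEquiv.symm (finProdFinEquiv.symm r).1).2) (c2 (finProdFinEquiv.symm r).2),
    fun r => one_price ?_ ?_ ?_, fun I hI hT => ?_⟩
  · simp only [c0]
    omega
  · simp only [c1]
    omega
  · simp only [c2]
    omega
  rw [Pool.Agent.Helper95.RV.yes_iff I hI hT]
  have h0 : ∀ i j k : Fin n, 0 ≤ one i j k I := fun i j k => by
    unfold one
    split_ifs
    · exact zero_le_one
    · exact le_refl _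
  constructor
  · intro h
    obtain ⟨r, _, hr⟩ := Finset.exists_ne_zero_of_sum_ne_zero h.ne'
    unfold one at hr
    rw [ite_ne_right_iff] at hr
    refine ⟨_, _, _, ?_, ?_, ?_, hr.1⟩
    · simp only [c0]
      omega
    · simp only [c1]
      omega
    · simp only [c2]
      omega
  · rintro ⟨i, j, k, hi, hj, hk, h⟩
    have hin := i.isLt
    have hjn := j.isLt
    have hkn := k.isLt
    set r := finProdFinEquiv (finProdFinEquiv ((⟨(i : ℕ) / 3, by omega⟩ : Fin ((n + 2) / 3)),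
      (⟨(j : ℕ) / 3, by omega⟩ : Fin ((n + 1) / 3))), (⟨(k : ℕ) / 3, by omega⟩ : Fin (n / 3)))
      with hr
    refine Finset.sum_pos' (fun _ _ => h0 _ _ _) ⟨r, Finset.mem_univ _, ?_⟩
    beta_reduce
    rw [hr, Equiv.symm_apply_apply, Equiv.symm_apply_apply]
    have e0 : c0 (⟨(i : ℕ) / 3, by omega⟩ : Fin ((n + 2) / 3)) = i := by
      apply Fin.ext
      simp only [c0]
      omega
    have e1 : c1 (⟨(j : ℕ) / 3, by omega⟩ : Fin ((n + 1) / 3)) = j := by
      apply Fin.ext
      simp only [c1]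
      omega
    have e2 : c2 (⟨(k : ℕ) / 3, by omega⟩ : Fin (n / 3)) = k := by
      apply Fin.ext
      simp only [c2]
      omega
    rw [e0, e1, e2]
    unfold one
    rw [if_pos h]
    exact zero_lt_one

end Pool.Agent.Helper28.DG
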