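import Pool.Agent.Helper94.DG.Defs2
import Pool.Agent.Helper28.DG.Upper

/-!
# Digests: the upper bound for adaptive voters (linear hashing)
-/

set_option autoImplicit false

open Finset

namespace Pool.Agent.Helper28.DG

open Pool.Agent.Helper22.ETModel Pool.Agent.Helper8.VT Pool.Agent.Helper8.UV
open Pool.Agent.Helper53.TC5 Pool.Agent.Helper94.DG

section hash

variable {p : ℕ} [hp : Fact p.Prime]

/-- the residue of `a * x` -/
def rs (a : ZMod p) (x : ℤ) : ℕ := (a * (x : ZMod p)).val

theorem rs_lt (a : ZMod p) (x : ℤ) : rs a x < p := ZMod.val_lt _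

theorem hs_lt {K : ℕ} (hK : 1 ≤ K) (a : ZMod p) (x : ℤ) : K * rs a x / p < K := by
  rw [Nat.div_lt_iff_lt_mul hp.out.pos]
  exact Nat.mul_lt_mul_of_pos_left (rs_lt a x) hK

/-- the digest -/
def hsh {K : ℕ} (hK : 1 ≤ K) (a : ZMod p) (x : ℤ) : Fin K := ⟨K * rs a x / p, hs_lt hK a x⟩

/-- candidates -/
def Cd (K : ℕ) (A B C : ℕ) : Prop := K ∣ A + B + C ∨ K ∣ A + B + C + 1 ∨ K ∣ A + B + C + 2

instance (K A B C : ℕ) : Decidable (Cd K A B C) := by unfold Cd; infer_instance

theorem rs_sum (a : ZMod p) (x y z : ℤ) : ∃ s, rs a x + rs a y + rs a z = rs a (x + y + z) + p * s := by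
  have h1 : ((rs a x + rs a y + rs a z : ℕ) : ZMod p) = ((rs a (x + y + z) : ℕ) : ZMod p) := by
    unfold rs
    push_cast
    rw [ZMod.natCast_zmod_val, ZMod.natCast_zmod_val, ZMod.natCast_zmod_val,
      ZMod.natCast_zmod_val]
    ring
  rw [ZMod.natCast_eq_natCast_iff] at h1
  have h2 : rs a (x + y + z) = (rs a x + rs a y + rs a z) % p := by
    have h3 : (rs a x + rs a y + rs a z) % p = rs a (x + y + z) % p := h1
    rw [h3, Nat.mod_eq_of_lt (rs_lt a _)]
  refine ⟨(rs a x + rs a y + rs a z) / p, ?_⟩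
  rw [h2]
  exact (Nat.mod_add_div _ _).symm

theorem cd_zero {K : ℕ} (a : ZMod p) {x y z : ℤ} (h : x + y + z = 0) :
    Cd K (K * rs a x / p) (K * rs a y / p) (K * rs a z / p) := by
  obtain ⟨s, hs⟩ := rs_sum a x y z
  have h0 : rs a (x + y + z) = 0 := by
    rw [h]
    unfold rs
    simp
  rw [h0, zero_add] at hs
  have e1 := Nat.div_add_mod (K * rs a x) p
  have e2 := Nat.div_add_mod (K * rs a y) p
  have e3 := Nat.div_add_mod (K * rs a z) p
  have l1 := Nat.mod_lt (K * rs a x) hp.out.pos
  have l2 := Nat.mod_lt (K * rs a y) hp.out.pos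
  have l3 := Nat.mod_lt (K * rs a z) hp.out.pos
  set A := K * rs a x / p
  set B := K * rs a y / p
  set C := K * rs a z / p
  set mx := K * rs a x % p
  set my := K * rs a y % p
  set mz := K * rs a z % p
  have hsum : p * (A + B + C) + (mx + my + mz) = p * (K * s) := by
    have : K * (rs a x + rs a y + rs a z) = K * (p * s) := by rw [hs]
    nlinarith
  have hdiv : p ∣ mx + my + mz := by
    have h1 : p ∣ p * (A + B + C) + (mx + my + mz) := by
      rw [hsum]
      exact dvd_mul_right _ _
    exact (Nat.dvd_add_right (dvd_mul_right _ _)).1 h1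
  obtain ⟨e, he⟩ := hdiv
  have he3 : e < 3 := by
    by_contra hn
    have : p * 3 ≤ p * e := Nat.mul_le_mul_left _ (by omega)
    omega
  have hfin : A + B + C + e = K * s := by
    apply Nat.eq_of_mul_eq_mul_left hp.out.pos
    rw [mul_add, ← he, hsum]
  unfold Cd
  have hcase : e = 0 ∨ e = 1 ∨ e = 2 := by omega
  rcases hcase with rfl | rfl | rfl
  · exact Or.inl ⟨s, by omega⟩
  · exact Or.inr (Or.inl ⟨s, by omega⟩)
  · exact Or.inr (Or.inr ⟨s, by omega⟩)

theorem cd_range {K : ℕ} (hK : 3 ≤ K) (a : ZMod p) {x y z : ℤ}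
    (h : Cd K (K * rs a x / p) (K * rs a y / p) (K * rs a z / p)) :
    K * rs a (x + y + z) < 3 * p ∨ K * p ≤ K * rs a (x + y + z) + 2 * p := by
  obtain ⟨s, hs⟩ := rs_sum a x y z
  have e1 := Nat.div_add_mod (K * rs a x) p
  have e2 := Nat.div_add_mod (K * rs a y) p
  have e3 := Nat.div_add_mod (K * rs a z) p
  have l1 := Nat.mod_lt (K * rs a x) hp.out.pos
  have l2 := Nat.mod_lt (K * rs a y) hp.out.pos
  have l3 := Nat.mod_lt (K * rs a z) hp.out.pos
  have hr := rs_lt a (x + y + z)
  set A := K * rs a x / p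
  set B := K * rs a y / p
  set C := K * rs a z / p
  set mx := K * rs a x % p
  set my := K * rs a y % p
  set mz := K * rs a z % p
  set r := rs a (x + y + z)
  have hsum : p * (A + B + C) + (mx + my + mz) = K * r + p * (K * s) := by
    have : K * (rs a x + rs a y + rs a z) = K * (r + p * s) := by rw [hs]
    nlinarith
  obtain ⟨e, he, l, hl⟩ : ∃ e, e < 3 ∧ K ∣ A + B + C + e := by
    rcases h with h | h | h
    · exact ⟨0, by norm_num, h⟩
    · exact ⟨1, by norm_num, h⟩
    · exact ⟨2, by norm_num, h⟩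
  -- `K * r = p * K * (l - s) - p * e + m`
  have hZ : (K : ℤ) * r = p * (K * ((l : ℤ) - s)) - p * e + (mx + my + mz) := by
    have h1 : (p : ℤ) * (A + B + C) + (mx + my + mz) = K * r + p * (K * s) := by
      exact_mod_cast hsum
    have h2 : (A : ℤ) + B + C + e = K * l := by exact_mod_cast hl
    have h3 : (p : ℤ) * ((A : ℤ) + B + C + e) = p * (K * l) := by rw [h2]
    linarith
  have hp0 : (0 : ℤ) < p := by exact_mod_cast hp.out.pos
  have hK3 : (3 : ℤ) ≤ K := by exact_mod_cast hK
  have hm : (mx : ℤ) + my + mz < 3 * p := by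
    have : mx + my + mz < 3 * p := by omega
    exact_mod_cast this
  have hm0 : (0 : ℤ) ≤ (mx : ℤ) + my + mz := by positivity
  have he2 : (e : ℤ) ≤ 2 := by
    have : e ≤ 2 := by omega
    exact_mod_cast this
  have he0 : (0 : ℤ) ≤ e := by positivity
  have hpe : (p : ℤ) * e ≤ 2 * p := by nlinarith
  have hpe0 : (0 : ℤ) ≤ p * e := by positivity
  have hrZ : (K : ℤ) * r < K * p := by
    have h1 : K * r < K * p := Nat.mul_lt_mul_of_pos_left hr (by omega)
    exact_mod_cast h1
  have hr0 : (0 : ℤ) ≤ K * r := by positivity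
  rcases le_or_gt ((l : ℤ) - s) 0 with hj | hj
  · left
    have h1 : (p : ℤ) * (K * ((l : ℤ) - s)) ≤ 0 := by
      apply mul_nonpos_of_nonneg_of_nonpos hp0.le
      exact mul_nonpos_of_nonneg_of_nonpos (by linarith) hj
    have h2 : (K : ℤ) * r < 3 * p := by linarith
    exact_mod_cast h2
  · right
    have h1 : (p : ℤ) * K ≤ p * (K * ((l : ℤ) - s)) := by
      apply mul_le_mul_of_nonneg_left _ hp0.le
      nlinarith
    have h2 : (K : ℤ) * p ≤ K * r + 2 * p := by linarith
    exact_mod_cast h2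

theorem card_cd {K : ℕ} (hK : 1 ≤ K) (hKp : K ≤ p) {x y z : ℤ}
    (h : ((x + y + z : ℤ) : ZMod p) ≠ 0) :
    K * (univ.filter fun a : ZMod p =>
      Cd K (K * rs a x / p) (K * rs a y / p) (K * rs a z / p)).card ≤ 7 * p := by
  classical
  rcases lt_or_ge K 3 with hK3 | hK3
  · have h1 : (univ.filter fun a : ZMod p =>
        Cd K (K * rs a x / p) (K * rs a y / p) (K * rs a z / p)).card ≤ p := by
      refine (card_le_univ _).trans ?_
      rw [ZMod.card]
    calc K * _ ≤ 7 * _ := Nat.mul_le_mul_right _ (by omega)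
      _ ≤ 7 * p := Nat.mul_le_mul_left _ h1
  · have hinj : (univ.filter fun a : ZMod p =>
        Cd K (K * rs a x / p) (K * rs a y / p) (K * rs a z / p)).card ≤
        ((range p).filter fun r => K * r < 3 * p ∨ K * p ≤ K * r + 2 * p).card := by
      apply card_le_card_of_injOn (fun a => rs a (x + y + z))
      · intro a ha
        rw [mem_coe, mem_filter] at ha
        rw [mem_coe, mem_filter, mem_range]
        exact ⟨rs_lt a _, cd_range hK3 a ha.2⟩
      · intro a _ b _ hab
        have h1 : a * ((x + y + z : ℤ) : ZMod p) = b * ((x + y + z : ℤ) : ZMod p) :=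
          ZMod.val_injective p hab
        exact mul_right_cancel₀ h h1
    have hsub : ((range p).filter fun r => K * r < 3 * p ∨ K * p ≤ K * r + 2 * p) ⊆
        range (3 * p / K + 1) ∪ (range (2 * p / K)).image (fun r => p - 1 - r) := by
      intro r hr
      rw [mem_filter, mem_range] at hr
      rw [mem_union, mem_range, mem_image]
      rcases hr.2 with h1 | h1
      · left
        have : r ≤ 3 * p / K := by
          rw [Nat.le_div_iff_mul_le (by omega), mul_comm]
          exact h1.le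
        omega
      · right
        refine ⟨p - 1 - r, ?_, by omega⟩
        rw [mem_range]
        have : p - 1 - r + 1 ≤ 2 * p / K := by
          rw [Nat.le_div_iff_mul_le (by omega)]
          have h2 : p - 1 - r + 1 = p - r := by omega
          rw [h2, Nat.sub_mul, mul_comm p K, mul_comm r K]
          omega
        omega
    have h2 := (hinj.trans (card_le_card hsub)).trans (card_union_le _ _)
    rw [card_range] at h2
    have h3 : ((range (2 * p / K)).image (fun r => p - 1 - r)).card ≤ 2 * p / K := by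
      refine card_image_le.trans ?_
      rw [card_range]
    have h4 : K * (3 * p / K) ≤ 3 * p := Nat.mul_div_le _ _
    have h5 : K * (2 * p / K) ≤ 2 * p := Nat.mul_div_le _ _
    calc K * _ ≤ K * (3 * p / K + 1 + 2 * p / K) := Nat.mul_le_mul_left _ (by omega)
      _ = K * (3 * p / K) + K + K * (2 * p / K) := by ring
      _ ≤ 7 * p := by omega

end hash

/-! ### The trees -/

section trees

variable {n K p : ℕ} [hp : Fact p.Prime]

/-- the triangle `t` is a candidate -/
def cnd (K : ℕ) (a : ZMod p) (w : Wts n) (t : Fin n × Fin n × Fin n) : Bool :=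
  decide (Cd K (K * rs a (w t.1 t.2.1) / p) (K * rs a (w t.2.1 t.2.2) / p)
    (K * rs a (w t.1 t.2.2) / p))

/-- the list of the candidates -/
noncomputable def lst (K : ℕ) (a : ZMod p) (w : Wts n) : List (Fin n × Fin n × Fin n) :=
  (Trs n).toList.filter (cnd K a w)

/-- the tree of the triangle `t` -/
noncomputable def trT : Option (Fin n × Fin n × Fin n) → Tree n 3
  | none => .leaf 0
  | some t => .node t.1 t.2.1 fun x => .node t.2.1 t.2.2 fun y => .node t.1 t.2.2 fun z =>
      .leaf (if x + y + z = 0 then 1 else 0)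

/-- the sum of the weights is zero -/
def zr (w : Wts n) (t : Fin n × Fin n × Fin n) : Prop := w t.1 t.2.1 + w t.2.1 t.2.2 + w t.1 t.2.2 = 0

instance (w : Wts n) (t : Fin n × Fin n × Fin n) : Decidable (zr w t) := by
  unfold zr; infer_instance

theorem eval_trT (o : Option (Fin n × Fin n × Fin n)) (w : Wts n) :
    (trT o).eval w = match o with
      | none => 0
      | some t => if zr w t then 1 else 0 := by
  rcases o with _ | t
  · rfl
  · simp only [trT, Tree.eval, zr]

/-- the voter -/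
noncomputable def vt (K : ℕ) (a : ZMod p) (r : ℕ) (I : Inst n) : ℝ :=
  (trT (lst K a I.wt)[r]?).eval I.wt

theorem lst_congr (a : ZMod p) {hK : 1 ≤ K} {w w' : Wts n}
    (h : ∀ u v : Fin n, (u : ℕ) % 3 < (v : ℕ) % 3 → hsh hK a (w u v) = hsh hK a (w' u v)) :
    lst K a w = lst K a w' := by
  unfold lst
  apply List.filter_congr
  intro t ht
  rw [mem_toList] at ht
  unfold Trs at ht
  rw [mem_filter] at ht
  obtain ⟨-, h0, h1, h2⟩ := ht
  have e1 := congrArg Fin.val (h t.1 t.2.1 (by omega))
  have e2 := congrArg Fin.val (h t.2.1 t.2.2 (by omega))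
  have e3 := congrArg Fin.val (h t.1 t.2.2 (by omega))
  simp only [hsh] at e1 e2 e3
  unfold cnd
  rw [e1, e2, e3]

theorem probes_trT {o : Option (Fin n × Fin n × Fin n)} (ho : ∀ t, o = some t → t ∈ Trs n)
    {q q' : ℕ} (hqq : q < q') (hq : q' < 3) (w : Wts n) : probes q q' (trT o) w ≤ 1 := by
  rcases o with _ | t
  · simp [trT, probes]
  · have ht := ho t rfl
    unfold Trs at ht
    rw [mem_filter] at ht
    obtain ⟨-, h0, h1, h2⟩ := ht
    simp only [trT, probes]
    by_cases a1 : Side q q' t.1 t.2.1 <;> by_cases a2 : Side q q' t.2.1 t.2.2 <;>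
      by_cases a3 : Side q q' t.1 t.2.2 <;>
      first
        | (rw [if_neg a1, if_neg a2, if_neg a3]; done)
        | (exfalso; unfold Side at a1 a2 a3; omega)
        | simp [a1, a2, a3]

theorem lst_mem {a : ZMod p} {w : Wts n} {r : ℕ} {t : Fin n × Fin n × Fin n}
    (h : (lst K a w)[r]? = some t) : t ∈ Trs n := by
  have h1 := List.mem_of_getElem? h
  unfold lst at h1
  rw [List.mem_filter, mem_toList] at h1
  exact h1.1

theorem vt_tree (hK : 1 ≤ K) (a : ZMod p) (r : ℕ) (f : Flags n) :
    IsTree (K := fun _ _ => K) f (fun _ _ => hsh hK a) 1 1 1 (vt K a r) := by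
  refine ⟨3, fun w => trT (lst K a w)[r]?, ?_, ?_⟩
  · intro w w' h _
    have h1 : lst K a w = lst K a w' := lst_congr (hK := hK) a h
    simp only [h1]
  · intro w _
    exact ⟨rfl, probes_trT (fun t => lst_mem) (by norm_num) (by norm_num) w,
      probes_trT (fun t => lst_mem) (by norm_num) (by norm_num) w,
      probes_trT (fun t => lst_mem) (by norm_num) (by norm_num) w⟩

theorem vt_nonneg (a : ZMod p) (r : ℕ) (I : Inst n) : 0 ≤ vt K a r I := by
  unfold vt
  rw [eval_trT]
  split
  · exact le_rfl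
  · split_ifs
    · exact zero_le_one
    · exact le_rfl

theorem vt_pos {a : ZMod p} {r : ℕ} {I : Inst n} (h : 0 < vt K a r I) :
    ∃ t ∈ Trs n, zr I.wt t := by
  unfold vt at h
  rw [eval_trT] at h
  split at h
  · exact absurd h (lt_irrefl _)
  · rename_i t ht
    split_ifs at h with h1
    · exact ⟨t, lst_mem ht, h1⟩
    · exact absurd h (lt_irrefl _)

/-- the number of the candidates with nonzero sum -/
def bads (K : ℕ) (a : ZMod p) (w : Wts n) : ℕ :=
  ((Trs n).filter fun t => cnd K a w t = true ∧ ¬ zr w t).card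

theorem length_filter (a : ZMod p) (w : Wts n) :
    ((lst K a w).filter fun t => decide (¬ zr w t)).length = bads K a w := by
  unfold lst bads
  rw [List.filter_filter, ← List.countP_eq_length_filter,
    show (fun x => decide (¬ zr w x) && cnd K a w x) =
      fun x => decide (¬ zr w x ∧ cnd K a w x = true) from by funext x; simp,
    ← Multiset.coe_countP, coe_toList, Multiset.countP_eq_card_filter, ← filter_val, card_val]
  congr 1
  ext t
  simp only [mem_filter]
  tauto

theorem exists_vt {a : ZMod p} {N : ℕ} {I : Inst n} {t : Fin n × Fin n × Fin n}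
    (ht : t ∈ Trs n) (hz : zr I.wt t) (hb : bads K a I.wt < N) : ∃ r < N, 0 < vt K a r I := by
  by_contra hcon
  push Not at hcon
  have hmem : t ∈ lst K a I.wt := by
    unfold lst
    rw [List.mem_filter, mem_toList]
    refine ⟨ht, ?_⟩
    unfold cnd
    rw [decide_eq_true_eq]
    exact cd_zero a hz
  obtain ⟨i, hi, hit⟩ := List.mem_iff_getElem.1 hmem
  have hnz : ∀ r < N, ∀ t', (lst K a I.wt)[r]? = some t' → ¬ zr I.wt t' := by
    intro r hr t' ht' hz'
    have h1 := hcon r hr
    unfold vt at h1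
    rw [eval_trT, ht'] at h1
    simp only [if_pos hz'] at h1
    exact absurd h1 (not_le.2 zero_lt_one)
  have hiN : N ≤ i := by
    by_contra hn
    rw [not_le] at hn
    exact hnz i hn t (by rw [List.getElem?_eq_getElem hi, hit]) hz
  have h1 : ((lst K a I.wt).take N).filter (fun t => decide (¬ zr I.wt t)) =
      (lst K a I.wt).take N := by
    rw [List.filter_eq_self]
    intro t' ht'
    rw [decide_eq_true_eq]
    obtain ⟨j, hj, hjt⟩ := List.mem_iff_getElem.1 ht'
    rw [List.length_take] at hj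
    rw [List.getElem_take] at hjt
    refine hnz j (by omega) t' ?_
    rw [List.getElem?_eq_getElem (by omega), hjt]
  have h2 : (((lst K a I.wt).take N).filter (fun t => decide (¬ zr I.wt t))).length ≤
      ((lst K a I.wt).filter (fun t => decide (¬ zr I.wt t))).length :=
    ((List.take_sublist _ _).filter _).length_le
  rw [h1, length_filter, List.length_take] at h2
  omega

theorem decides (hn : 1 ≤ n) (hK : 1 ≤ K) (hKn : K ≤ n ^ 3) (hp1 : 6 * n ^ 300 + K ≤ p)
    (I : Inst n) (hI : I.Valid) (hT : Tripartite I) :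
    Decides (fun (a : ZMod p) (r : Fin (8 * n ^ 3 / K)) => vt K a r) I := by
  classical
  have hyes : I.Yes ↔ ∃ t ∈ Trs n, zr I.wt t := by
    rw [Pool.Agent.Helper95.RV.yes_iff I hI hT]
    constructor
    · rintro ⟨c, j, k, hc, hj, hk, h⟩
      refine ⟨(c, j, k), ?_, h⟩
      unfold Trs
      rw [mem_filter]
      exact ⟨mem_univ _, hc, hj, hk⟩
    · rintro ⟨t, ht, h⟩
      unfold Trs at ht
      rw [mem_filter] at ht
      exact ⟨t.1, t.2.1, t.2.2, ht.2.1, ht.2.2.1, ht.2.2.2, h⟩
  set N := 8 * n ^ 3 / K with hN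
  have hgood : ∀ a : ZMod p, bads K a I.wt < N →
      (0 < ∑ r : Fin N, vt K a r I ↔ I.Yes) := by
    intro a ha
    rw [hyes]
    constructor
    · intro h
      obtain ⟨r, _, hr⟩ := exists_ne_zero_of_sum_ne_zero h.ne'
      exact vt_pos (lt_of_le_of_ne (vt_nonneg a r I) hr.symm)
    · rintro ⟨t, ht, hz⟩
      obtain ⟨r, hr, hpos⟩ := exists_vt (K := K) ht hz ha
      exact sum_pos' (fun r _ => vt_nonneg a r I) ⟨⟨r, hr⟩, mem_univ _, hpos⟩
  set bad := univ.filter fun a : ZMod p => N ≤ bads K a I.wt with hbad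
  -- the expected number of bad candidates
  have hKp : K ≤ p := by omega
  have hcount : ∀ t ∈ (Trs n).filter (fun t => ¬ zr I.wt t),
      K * (univ.filter fun a : ZMod p => cnd K a I.wt t = true).card ≤ 7 * p := by
    intro t ht
    rw [mem_filter] at ht
    have hne : ((I.wt t.1 t.2.1 + I.wt t.2.1 t.2.2 + I.wt t.1 t.2.2 : ℤ) : ZMod p) ≠ 0 := by
      intro h0
      rw [ZMod.intCast_zmod_eq_zero_iff_dvd] at h0
      have a1 := hI.2.2.2 t.1 t.2.1
      have a2 := hI.2.2.2 t.2.1 t.2.2
      have a3 := hI.2.2.2 t.1 t.2.2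
      have h4 : |I.wt t.1 t.2.1 + I.wt t.2.1 t.2.2 + I.wt t.1 t.2.2| ≤ 3 * (n : ℤ) ^ 300 := by
        have b1 := abs_add_le (I.wt t.1 t.2.1 + I.wt t.2.1 t.2.2) (I.wt t.1 t.2.2)
        have b2 := abs_add_le (I.wt t.1 t.2.1) (I.wt t.2.1 t.2.2)
        linarith
      have h5 : (6 : ℤ) * (n : ℤ) ^ 300 + K ≤ p := by exact_mod_cast hp1
      have hK' : (1 : ℤ) ≤ K := by exact_mod_cast hK
      have hn0 : (0 : ℤ) ≤ (n : ℤ) ^ 300 := by positivity
      exact ht.2 (Int.eq_zero_of_abs_lt_dvd h0 (by linarith))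
    have h1 := card_cd hK hKp hne
    have h2 : (univ.filter fun a : ZMod p => cnd K a I.wt t = true) =
        univ.filter fun a : ZMod p => Cd K (K * rs a (I.wt t.1 t.2.1) / p)
          (K * rs a (I.wt t.2.1 t.2.2) / p) (K * rs a (I.wt t.1 t.2.2) / p) := by
      ext a
      simp only [mem_filter, cnd, decide_eq_true_eq]
    rw [h2]
    exact h1
  have hsum : K * ∑ a : ZMod p, bads K a I.wt ≤ (Trs n).card * (7 * p) := by
    have h1 : ∑ a : ZMod p, bads K a I.wt = ∑ t ∈ (Trs n).filter (fun t => ¬ zr I.wt t),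
        (univ.filter fun a : ZMod p => cnd K a I.wt t = true).card := by
      simp only [bads, card_eq_sum_ones, sum_filter]
      rw [sum_comm]
      apply sum_congr rfl
      intro t _
      by_cases hz : zr I.wt t
      · simp [hz]
      · simp [hz]
    rw [h1, mul_sum]
    calc _ ≤ ∑ t ∈ (Trs n).filter (fun t => ¬ zr I.wt t), 7 * p := sum_le_sum hcount
      _ = ((Trs n).filter (fun t => ¬ zr I.wt t)).card * (7 * p) := by
          rw [sum_const, smul_eq_mul]
      _ ≤ (Trs n).card * (7 * p) := Nat.mul_le_mul_right _ (card_filter_le _ _)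
  have hmarkov : bad.card * N ≤ ∑ a : ZMod p, bads K a I.wt := by
    calc bad.card * N = ∑ a ∈ bad, N := by rw [sum_const, smul_eq_mul]
      _ ≤ ∑ a ∈ bad, bads K a I.wt := sum_le_sum fun a ha => (mem_filter.1 ha).2
      _ ≤ ∑ a : ZMod p, bads K a I.wt := sum_le_sum_of_subset (subset_univ _)
  have hNK : 7 * n ^ 3 ≤ N * K := by
    have h1 := Nat.div_add_mod (8 * n ^ 3) K
    have h2 := Nat.mod_lt (8 * n ^ 3) (show 0 < K by omega)
    rw [← hN] at h1
    have h3 : N * K = K * N := mul_comm _ _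
    omega
  have hfinal : 20 * bad.card ≤ p := by
    have hn3 : 0 < 7 * n ^ 3 := by positivity
    have h1 : (7 * n ^ 3) * (20 * bad.card) ≤ (7 * n ^ 3) * p := by
      calc (7 * n ^ 3) * (20 * bad.card) ≤ (N * K) * (20 * bad.card) :=
            Nat.mul_le_mul_right _ hNK
        _ = 20 * (K * (bad.card * N)) := by ring
        _ ≤ 20 * (K * ∑ a : ZMod p, bads K a I.wt) :=
            Nat.mul_le_mul_left _ (Nat.mul_le_mul_left _ hmarkov)
        _ ≤ 20 * ((Trs n).card * (7 * p)) := Nat.mul_le_mul_left _ hsum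
        _ = (20 * (Trs n).card) * (7 * p) := by ring
        _ ≤ n ^ 3 * (7 * p) := Nat.mul_le_mul_right _ (card_Trs n)
        _ = (7 * n ^ 3) * p := by ring
    exact Nat.le_of_mul_le_mul_left h1 hn3
  unfold Decides
  have hsub : (univ \ bad) ⊆ univ.filter fun a : ZMod p =>
      (0 < ∑ r : Fin N, vt K a r I ↔ I.Yes) := by
    intro a ha
    rw [mem_sdiff] at ha
    rw [mem_filter]
    refine ⟨mem_univ _, hgood a ?_⟩
    by_contra hcon
    apply ha.2
    rw [hbad, mem_filter]
    exact ⟨mem_univ _, not_lt.1 hcon⟩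
  have h1 := card_le_card hsub
  rw [card_sdiff_of_subset (subset_univ _), card_univ, ZMod.card] at h1
  have h2 : bad.card ≤ p := by
    refine (card_le_univ _).trans ?_
    rw [ZMod.card]
  rw [ZMod.card]
  change 19 * p ≤ 20 * (univ.filter fun a : ZMod p =>
    (0 < ∑ r : Fin N, vt K a r I ↔ I.Yes)).card
  omega

end trees

theorem upper_adaptive (n K : ℕ) (hK : 1 ≤ K) (hKn : K ≤ n ^ 3) :
    ∃ (N : ℕ) (Ω : Type) (_ : Fintype Ω) (_ : Nonempty Ω)
      (δ : Ω → ∀ u v : Fin n, ℤ → Fin K) (H : Ω → Fin N → Inst n → ℝ),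
      N * K ≤ 8 * n ^ 3 ∧
      (∀ ω r (f : Flags n), IsTree (K := fun _ _ => K) f (δ ω) 1 1 1 (H ω r)) ∧
      ∀ I : Inst n, I.Valid → Tripartite I → Decides H I := by
  have hn : 1 ≤ n := by
    rcases Nat.eq_zero_or_pos n with rfl | h
    · simp at hKn
      omega
    · exact h
  obtain ⟨p, hp1, hp⟩ := Nat.exists_infinite_primes (6 * n ^ 300 + K)
  have : Fact p.Prime := ⟨hp⟩
  refine ⟨8 * n ^ 3 / K, ZMod p, inferInstance, inferInstance, fun a _ _ => hsh hK a,
    fun a r => vt K a r, Nat.div_mul_le_self _ _, fun a r f => vt_tree hK a r f, ?_⟩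
  intro I hI hT
  exact decides hn hK hKn hp1 I hI hT

end Pool.Agent.Helper28.DG
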