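import Pool.Agent.Helper28.DG.Adaptive

/-!
# Digests: the upper bound for adaptive voters, with one digest function for all cells
-/

set_option autoImplicit false

open Finset

namespace Pool.Agent.Helper28.DG

open Pool.Agent.Helper22.ETModel Pool.Agent.Helper8.VT Pool.Agent.Helper8.UV
open Pool.Agent.Helper53.TC5 Pool.Agent.Helper94.DG

theorem upper_adaptive1 (n K : ℕ) (hK : 1 ≤ K) (hKn : K ≤ n ^ 3) :
    ∃ (N : ℕ) (Ω : Type) (_ : Fintype Ω) (_ : Nonempty Ω)
      (δ : Ω → ℤ → Fin K) (H : Ω → Fin N → Inst n → ℝ),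
      N * K ≤ 8 * n ^ 3 ∧
      (∀ ω r (f : Flags n), IsTree (K := fun _ _ => K) f (fun _ _ => δ ω) 1 1 1 (H ω r)) ∧
      ∀ I : Inst n, I.Valid → Tripartite I → Decides H I := by
  have hn : 1 ≤ n := by
    rcases Nat.eq_zero_or_pos n with rfl | h
    · simp at hKn
      omega
    · exact h
  obtain ⟨p, hp1, hp⟩ := Nat.exists_infinite_primes (6 * n ^ 300 + K)
  have : Fact p.Prime := ⟨hp⟩
  refine ⟨8 * n ^ 3 / K, ZMod p, inferInstance, inferInstance, fun a => hsh hK a,
    fun a r => vt K a r, Nat.div_mul_le_self _ _, fun a r f => vt_tree hK a r f, ?_⟩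
  intro I hI hT
  exact decides hn hK hKn hp1 I hI hT

end Pool.Agent.Helper28.DG
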